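import Pool.Agent.Q20.HB.Win

set_option autoImplicit false

/-!
# Blocks of consecutive gaps which skip an interval of sizes, and single large gaps
-/

open Finset Filter Topology
open scoped Classical

namespace Pool.Agent.Q20.HB

open Pool.Agent.H510R2.Maier

/-- in every range `(X / 2, 3 X)` there is a long block -/
theorem high (κ t : ℝ) (hκ : 0 < κ) (ht : t < 2 * Real.exp (-Real.eulerMascheroniConstant) * κ) :
    ∀ᶠ X : ℝ in atTop, ∃ m : ℕ, X / 2 < P m ∧ (P m : ℝ) < 3 * X ∧ t * (Real.log (P m)) ^ 2 < B κ m := by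
  set E := Real.exp Real.eulerMascheroniConstant with hE
  have hE0 : 0 < E := Real.exp_pos _
  have hinv : Real.exp (-Real.eulerMascheroniConstant) = 1 / E := by
    rw [Real.exp_neg, one_div]
  rw [hinv] at ht
  have h0 : E / 2 * t < κ := by
    have : E / 2 * t < E / 2 * (2 * (1 / E) * κ) := by gcongr
    have h2 : E / 2 * (2 * (1 / E) * κ) = κ := by field_simp
    linarith
  -- `c'` between `max t 0` and `2 κ / E`
  obtain ⟨c', h1, h2⟩ := exists_between (max_lt ht (show 0 < 2 * (1 / E) * κ by positivity))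
  have hc'0 : 0 < c' := (le_max_right _ _).trans_lt h1
  have htc : t < c' := (le_max_left _ _).trans_lt h1
  have h3 : E / 2 * c' < κ := by
    have : E / 2 * c' < E / 2 * (2 * (1 / E) * κ) := by gcongr
    have h2 : E / 2 * (2 * (1 / E) * κ) = κ := by field_simp
    linarith
  obtain ⟨κ', h4, h5⟩ := exists_between h3
  have hκ'0 : 0 < κ' := lt_trans (by positivity) h4
  set ε := (κ' - E / 2 * c') / c' with hε
  have hε0 : 0 < ε := div_pos (by linarith) hc'0
  have hεc : (E / 2 + ε) * c' = κ' := by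
    rw [hε]
    field_simp
    ring
  obtain ⟨N0, hN0⟩ := eventually_atTop.1 (one_few κ κ' t c' hκ'0 h5 hc'0 htc)
  filter_upwards [few_final c' hc'0 ε hε0, eventually_ge_atTop (N0 : ℝ), eventually_ge_atTop (10 : ℝ)] with X hX hXN hX10
  obtain ⟨n, hn1, hn2, hn3⟩ := hX
  have hn : 2 ≤ n := by
    have : (2 : ℝ) ≤ n := by linarith
    exact_mod_cast this
  have hnN : N0 ≤ n := by
    have : (N0 : ℝ) ≤ n := by linarith
    exact_mod_cast this
  have hlog : Real.log X ≤ Real.log n := Real.log_le_log (by linarith) hn1.le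
  have h6 : (cntP Nat.Prime n ⌊c' * (Real.log n) ^ 2⌋₊ : ℝ) ≤ κ' * Real.log n := by
    rw [cntP_prime]
    calc (cnt n ⌊c' * (Real.log n) ^ 2⌋₊ : ℝ) ≤ (E / 2 + ε) * (c' * Real.log X) := hn3
      _ = κ' * Real.log X := by rw [← mul_assoc, hεc]
      _ ≤ κ' * Real.log n := by gcongr
  have h7 := hN0 n hnN h6
  have h8 : ((P (φ n) : ℕ) : ℝ) ≤ n := by exact_mod_cast φ_le n hn
  have h9 : (n : ℝ) ≤ 2 * P (φ n) := by exact_mod_cast φ_two n hn
  exact ⟨φ n, by linarith, by linarith, h7⟩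

/-- in every range `(X, 6 X)` there is a short block -/
theorem low (κ s : ℝ) (hκ : 0 < κ) (hs : κ < 1.07 * s) :
    ∀ᶠ X : ℝ in atTop, ∃ m : ℕ, X < P m ∧ (P m : ℝ) < 6 * X ∧ B κ m < s * (Real.log (P m)) ^ 2 := by
  have hs0 : 0 < s := by
    by_contra h
    push Not at h
    nlinarith
  obtain ⟨N0, hN0⟩ := eventually_atTop.1 (one_many κ (1.07 * s) s hκ hs hs0)
  filter_upwards [many_final s hs0, eventually_ge_atTop (N0 : ℝ), eventually_ge_atTop (10 : ℝ)] with X hX hXN hX10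
  obtain ⟨n, hn1, hn2, hn3⟩ := hX
  have hn : 2 ≤ n := by
    have : (2 : ℝ) ≤ n := by linarith
    exact_mod_cast this
  have hnN : N0 ≤ n := by
    have : (N0 : ℝ) ≤ n := by linarith
    exact_mod_cast this
  have h6 : 1.07 * s * Real.log n ≤ (cntP Nat.Prime n ⌊s * (Real.log n) ^ 2⌋₊ : ℝ) := by
    rw [cntP_prime, cnt_pi]
    refine le_trans (le_of_eq (by ring)) hn3
  obtain ⟨a1, a2, a3, a4⟩ := hN0 n hnN h6
  have b1 : (n : ℝ) < P (φ n + 1) := by exact_mod_cast a1
  have b2 : (P (φ n + 1) : ℝ) ≤ 2 * n := by exact_mod_cast a2.trans a3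
  exact ⟨φ n + 1, by linarith, by linarith, a4⟩

/-- a property which holds at `a` and fails at `a + k` is lost at some step -/
theorem step (p : ℕ → Prop) (a : ℕ) : ∀ k : ℕ, p a → ¬ p (a + k) → ∃ i, a ≤ i ∧ i < a + k ∧ p i ∧ ¬ p (i + 1) := by
  intro k
  induction k with
  | zero => intro h1 h2; exact absurd h1 (by simpa using h2)
  | succ k ih =>
    intro h1 h2
    by_cases h : p (a + k)
    · exact ⟨a + k, by omega, by omega, h, h2⟩
    · obtain ⟨i, hi1, hi2, hi3⟩ := ih h1 h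
      exact ⟨i, hi1, by omega, hi3⟩

/-- the first gap of a block is at least the loss in the next block -/
theorem loss (κ : ℝ) (hκ : 0 < κ) (m : ℕ) : B κ m - B κ (m + 1) ≤ (P (m + 1) : ℝ) - P m := by
  unfold B
  have h1 : P m ≤ P (m + 1) := P_mono (Nat.le_succ m)
  have h0 : 0 < P m := (Nat.zero_le m).trans_lt (lt_P m)
  have h2 : ⌊κ * Real.log (P m)⌋₊ ≤ ⌊κ * Real.log (P (m + 1))⌋₊ := by
    apply Nat.floor_le_floor
    have : Real.log (P m) ≤ Real.log (P (m + 1)) :=
      Real.log_le_log (by exact_mod_cast h0) (by exact_mod_cast h1)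
    gcongr
  have h3 : P (m + 1 + ⌊κ * Real.log (P m)⌋₊) ≤ P (m + 1 + 1 + ⌊κ * Real.log (P (m + 1))⌋₊) := P_mono (by omega)
  have h4 : (P (m + 1 + ⌊κ * Real.log (P m)⌋₊) : ℝ) ≤ P (m + 1 + 1 + ⌊κ * Real.log (P (m + 1))⌋₊) := by exact_mod_cast h3
  linarith

/-- the next prime is at most twice the prime -/
theorem next_le (m : ℕ) : P (m + 1) ≤ 2 * P m := by
  obtain ⟨q, hq, hq1, hq2⟩ := Nat.exists_prime_lt_and_le_two_mul (P m) ((Nat.zero_le m).trans_lt (lt_P m)).ne'
  have h1 : Nat.nth Nat.Prime (Nat.count Nat.Prime q) = q := Nat.nth_count hq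
  have h2 : m < Nat.count Nat.Prime q := by
    have : Nat.nth Nat.Prime m < Nat.nth Nat.Prime (Nat.count Nat.Prime q) := by
      rw [h1]; exact hq1
    exact (Nat.nth_lt_nth Nat.infinite_setOfPred_prime).1 this
  have h3 : P (m + 1) ≤ P (Nat.count Nat.Prime q) := P_mono h2
  have h4 : P (Nat.count Nat.Prime q) = q := h1
  omega

/-- **Dichotomy at every scale.** -/
theorem dichotomy (κ s t ε : ℝ) (hκ : 0 < κ) (hs : κ < 1.07 * s) (hst : s < t)
    (ht : t < 2 * Real.exp (-Real.eulerMascheroniConstant) * κ) (hε : 0 < ε) :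
    ∀ᶠ X : ℝ in atTop, ∃ m : ℕ, X < P m ∧ (P m : ℝ) < 36 * X ∧
      ((s * (Real.log (P m)) ^ 2 < B κ m ∧ B κ m < t * (Real.log (P m)) ^ 2) ∨
        (t * (Real.log (P m)) ^ 2 ≤ B κ m ∧ B κ (m + 1) ≤ s * (Real.log (P (m + 1))) ^ 2 ∧
          (t - s - ε) * (Real.log (P m)) ^ 2 < (P (m + 1) : ℝ) - P m)) := by
  have hs0 : 0 < s := by
    by_contra h
    push Not at h
    nlinarith
  obtain ⟨t', ht1, ht2⟩ := exists_between ht
  have hmul2 : Tendsto (fun X : ℝ => 2 * X) atTop atTop := tendsto_id.const_mul_atTop (by norm_num)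
  have hmul6 : Tendsto (fun X : ℝ => 6 * X) atTop atTop := tendsto_id.const_mul_atTop (by norm_num)
  filter_upwards [hmul2.eventually (high κ t hκ ht), hmul6.eventually (low κ s hκ hs), eventually_ge_atTop (10 : ℝ),
    Real.tendsto_log_atTop.eventually_ge_atTop (4 * s / ε + 1)] with X h1 h2 hX10 hlog
  obtain ⟨a, ha1, ha2, ha3⟩ := h1
  obtain ⟨b, hb1, hb2, hb3⟩ := h2
  have hab : a < b := by
    by_contra h
    push Not at h
    have : (P b : ℝ) ≤ P a := by exact_mod_cast P_mono h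
    linarith
  obtain ⟨k, rfl⟩ := Nat.exists_eq_add_of_le hab.le
  have hpb : ¬ t * (Real.log (P (a + k))) ^ 2 ≤ B κ (a + k) := by
    intro h
    have hl : 0 < Real.log (P (a + k)) := Real.log_pos (by linarith)
    have : s * (Real.log (P (a + k))) ^ 2 < t * (Real.log (P (a + k))) ^ 2 := by gcongr
    linarith
  obtain ⟨m, hm1, hm2, hm3, hm4⟩ := step (fun m => t * (Real.log (P m)) ^ 2 ≤ B κ m) a k ha3.le hpb
  push Not at hm4
  have hPm : (P a : ℝ) ≤ P m := by exact_mod_cast P_mono hm1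
  have hPm1 : (P m : ℝ) < P (m + 1) := by exact_mod_cast P_lt (Nat.lt_succ_self m)
  have hPk : (P (m + 1) : ℝ) ≤ P (a + k) := by exact_mod_cast P_mono (show m + 1 ≤ a + k by omega)
  by_cases hc : s * (Real.log (P (m + 1))) ^ 2 < B κ (m + 1)
  · exact ⟨m + 1, by linarith, by linarith, Or.inl ⟨hc, hm4⟩⟩
  · push Not at hc
    refine ⟨m, by linarith, by linarith, Or.inr ⟨hm3, hc, ?_⟩⟩
    have h3 := loss κ hκ m
    have hP0 : (0 : ℝ) < P m := by linarith
    have hX : Real.log X ≤ Real.log (P m) := Real.log_le_log (by linarith) (by linarith)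
    have h4 : Real.log (P (m + 1)) ≤ Real.log (P m) + 1 := by
      have a1 : (P (m + 1) : ℝ) ≤ 2 * P m := by exact_mod_cast next_le m
      have a2 : Real.log (P (m + 1)) ≤ Real.log (2 * P m) := Real.log_le_log (by linarith) a1
      rw [Real.log_mul (by norm_num) hP0.ne'] at a2
      have := Real.log_two_lt_d9
      linarith
    have h5 : 0 ≤ Real.log (P (m + 1)) := Real.log_nonneg (by linarith)
    have h6 : s * (Real.log (P (m + 1))) ^ 2 ≤ s * (Real.log (P m) + 1) ^ 2 := by gcongr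
    have hl1 : 4 * s / ε + 1 ≤ Real.log (P m) := hlog.trans hX
    have hq : 0 ≤ 4 * s / ε := by positivity
    have hl2 : 4 * s ≤ ε * (Real.log (P m) - 1) := by
      have : 4 * s / ε ≤ Real.log (P m) - 1 := by linarith
      rw [div_le_iff₀ hε] at this
      linarith
    have hl3 : 1 ≤ Real.log (P m) := by linarith
    have h7 : s * (Real.log (P m) + 1) ^ 2 < s * (Real.log (P m)) ^ 2 + ε * (Real.log (P m)) ^ 2 := by
      have e1 : s * (Real.log (P m) + 1) ^ 2 = s * (Real.log (P m)) ^ 2 + s * (2 * Real.log (P m) + 1) := by ring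
      rw [e1]
      have e2 : s * (2 * Real.log (P m) + 1) ≤ s * (3 * Real.log (P m)) := by
        apply mul_le_mul_of_nonneg_left _ hs0.le
        linarith
      have e3 : 4 * s * Real.log (P m) ≤ ε * (Real.log (P m) - 1) * Real.log (P m) := by gcongr
      nlinarith [mul_pos hs0 (show 0 < Real.log (P m) by linarith), mul_pos hε (show 0 < Real.log (P m) by linarith)]
    have e4 : (t - s - ε) * (Real.log (P m)) ^ 2 = t * (Real.log (P m)) ^ 2 - (s * (Real.log (P m)) ^ 2 + ε * (Real.log (P m)) ^ 2) := by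
      ring
    rw [e4]
    linarith

/-- the limit superior of the quotients `(p_{m+1} - p_m) / (log p_m)²` -/
noncomputable def L : EReal :=
  limsup (fun m : ℕ => (((((P (m + 1) : ℝ) - P m) / (Real.log (P m)) ^ 2 : ℝ)) : EReal)) atTop

/-- If `L < t - s` there are blocks of the sizes between `s` and `t` at every scale. -/
theorem no_hole (κ s t : ℝ) (hκ : 0 < κ) (hs : κ < 1.07 * s) (hst : s < t)
    (ht : t < 2 * Real.exp (-Real.eulerMascheroniConstant) * κ) (hL : L < ((t - s : ℝ) : EReal)) :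
    ∀ᶠ X : ℝ in atTop, ∃ m : ℕ, X < P m ∧ (P m : ℝ) < 36 * X ∧
      s * (Real.log (P m)) ^ 2 < B κ m ∧ B κ m < t * (Real.log (P m)) ^ 2 := by
  obtain ⟨r, hr1, hr2⟩ := EReal.lt_iff_exists_real_btwn.1 hL
  have hr : r < t - s := by exact_mod_cast hr2
  have h1 := eventually_lt_of_limsup_lt hr1
  obtain ⟨M, hM⟩ := eventually_atTop.1 h1
  filter_upwards [dichotomy κ s t (t - s - r) hκ hs hst ht (by linarith), eventually_ge_atTop ((P M : ℝ)),
    eventually_ge_atTop (10 : ℝ)] with X hX hXM hX10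
  obtain ⟨m, hm1, hm2, hm3⟩ := hX
  refine ⟨m, hm1, hm2, ?_⟩
  rcases hm3 with h | ⟨-, -, h⟩
  · exact h
  · exfalso
    have hMm : M ≤ m := by
      by_contra hlt
      push Not at hlt
      have : (P m : ℝ) ≤ P M := by exact_mod_cast P_mono hlt.le
      linarith
    have h2 := hM m hMm
    have h3 : ((P (m + 1) : ℝ) - P m) / (Real.log (P m)) ^ 2 < r := by exact_mod_cast h2
    have hl : 0 < Real.log (P m) := Real.log_pos (by linarith)
    rw [div_lt_iff₀ (by positivity)] at h3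
    have e : t - s - (t - s - r) = r := by ring
    rw [e] at h
    linarith

/-- If `L` is finite, then for large `κ` all averages between the Maier constants occur. -/
theorem averages (hL : L < ⊤) (θ ε : ℝ) (h1 : 1 < 1.07 * θ)
    (h2 : θ < 2 * Real.exp (-Real.eulerMascheroniConstant)) (hε : 0 < ε) :
    ∃ κ₀ : ℝ, ∀ κ : ℝ, κ₀ ≤ κ → ∀ᶠ X : ℝ in atTop, ∃ m : ℕ, X < P m ∧ (P m : ℝ) < 36 * X ∧
      |B κ m / (κ * (Real.log (P m)) ^ 2) - θ| < ε := by
  obtain ⟨r, hr1, -⟩ := EReal.lt_iff_exists_real_btwn.1 hL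
  -- a small radius
  obtain ⟨δ, hδ0, hδ⟩ : ∃ δ : ℝ, 0 < δ ∧ δ ≤ ε ∧ 1 < 1.07 * (θ - δ) ∧
      θ + δ < 2 * Real.exp (-Real.eulerMascheroniConstant) := by
    refine ⟨min ε (min ((1.07 * θ - 1) / 2) ((2 * Real.exp (-Real.eulerMascheroniConstant) - θ) / 2)), ?_, ?_, ?_, ?_⟩
    · refine lt_min hε (lt_min ?_ ?_) <;> linarith
    · exact min_le_left _ _
    · have := (min_le_right ε (min ((1.07 * θ - 1) / 2) ((2 * Real.exp (-Real.eulerMascheroniConstant) - θ) / 2))).trans
        (min_le_left _ _)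
      linarith
    · have := (min_le_right ε (min ((1.07 * θ - 1) / 2) ((2 * Real.exp (-Real.eulerMascheroniConstant) - θ) / 2))).trans
        (min_le_right _ _)
      linarith
  refine ⟨max 1 (r / (2 * δ) + 1), fun κ hκ => ?_⟩
  have hκ1 : 1 ≤ κ := (le_max_left _ _).trans hκ
  have hκ0 : 0 < κ := by linarith
  have hκ2 : r / (2 * δ) < κ := by
    have := (le_max_right 1 (r / (2 * δ) + 1)).trans hκ
    linarith
  rw [div_lt_iff₀ (by positivity)] at hκ2
  have hlt : L < ((κ * (θ + δ) - κ * (θ - δ) : ℝ) : EReal) := by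
    refine hr1.trans ?_
    have : r < κ * (θ + δ) - κ * (θ - δ) := by
      have e : κ * (θ + δ) - κ * (θ - δ) = κ * (2 * δ) := by ring
      rw [e]
      exact hκ2
    exact_mod_cast this
  have hA := no_hole κ (κ * (θ - δ)) (κ * (θ + δ)) hκ0 (by nlinarith [hδ.2.1]) (by nlinarith)
    (by
      have := mul_lt_mul_of_pos_left hδ.2.2 hκ0
      linarith) hlt
  filter_upwards [hA, eventually_ge_atTop (10 : ℝ)] with X hX hX10
  obtain ⟨m, hm1, hm2, hm3, hm4⟩ := hX
  refine ⟨m, hm1, hm2, ?_⟩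
  have hl : 0 < Real.log (P m) := Real.log_pos (by linarith)
  have hden : 0 < κ * (Real.log (P m)) ^ 2 := by positivity
  have h3 : θ - δ < B κ m / (κ * (Real.log (P m)) ^ 2) := by
    rw [lt_div_iff₀ hden]
    calc (θ - δ) * (κ * (Real.log (P m)) ^ 2) = κ * (θ - δ) * (Real.log (P m)) ^ 2 := by ring
      _ < _ := hm3
  have h4 : B κ m / (κ * (Real.log (P m)) ^ 2) < θ + δ := by
    rw [div_lt_iff₀ hden]
    calc B κ m < κ * (θ + δ) * (Real.log (P m)) ^ 2 := hm4
      _ = _ := by ring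
  rw [abs_lt]
  constructor <;> linarith [hδ.1]

end Pool.Agent.Q20.HB
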