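import Mathlib
import Pool.Agent.H510R2.Maier.MB10

set_option autoImplicit false

/-!
# Blocks of consecutive gaps and windows of Cramér's length

The lemmas of this file are copied from the hand-ins `MP_69be96_nt/BlocksOfGaps` and
`MP_3bc45c_nt/CramerWindowCounts` of helper46 (Maier's matrix method, library `H510R2.Maier`).
-/

open Finset Filter Topology
open scoped Classical

namespace Pool.Agent.Q20.HB

open Pool.Agent.H510R2.Maier

/-- the primes, `P 0 = 2` -/
noncomputable def P (m : ℕ) : ℕ := Nat.nth Nat.Prime m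

/-- sum of `⌊κ log p_m⌋ + 1` consecutive differences of primes, starting at `p_m` -/
noncomputable def B (κ : ℝ) (m : ℕ) : ℝ := (P (m + 1 + ⌊κ * Real.log (P m)⌋₊) : ℝ) - P m

/-- index of the largest prime `≤ n` -/
noncomputable def φ (n : ℕ) : ℕ := Nat.count Nat.Prime (n + 1) - 1

theorem count_pos (n : ℕ) (hn : 2 ≤ n) : 0 < Nat.count Nat.Prime (n + 1) := by
  rw [Nat.pos_iff_ne_zero]
  intro h0
  rw [Nat.count_eq_zero ⟨2, Nat.prime_two⟩, Nat.nth_prime_zero_eq_two] at h0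
  omega

theorem φ_le (n : ℕ) (hn : 2 ≤ n) : P (φ n) ≤ n := by
  have h := count_pos n hn
  have : Nat.nth Nat.Prime (Nat.count Nat.Prime (n + 1) - 1) < n + 1 := Nat.nth_lt_of_lt_count (by omega)
  unfold P φ
  omega

theorem lt_φ (n : ℕ) (hn : 2 ≤ n) : n < P (φ n + 1) := by
  have h := count_pos n hn
  have h2 : n + 1 ≤ Nat.nth Nat.Prime (Nat.count Nat.Prime (n + 1)) :=
    (Nat.count_le_iff_le_nth Nat.infinite_setOfPred_prime).1 (le_refl (Nat.count Nat.Prime (n + 1)))
  unfold P φ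
  rw [Nat.sub_add_cancel h]
  omega

theorem φ_two (n : ℕ) (hn : 2 ≤ n) : n ≤ 2 * P (φ n) := by
  obtain ⟨q, hq, hq1, hq2⟩ := Nat.exists_prime_lt_and_le_two_mul (n / 2) (by omega)
  have h3 : Nat.nth Nat.Prime (Nat.count Nat.Prime q) = q := Nat.nth_count hq
  have h4 : q < P (φ n + 1) := lt_of_le_of_lt (by omega) (lt_φ n hn)
  have h5 : Nat.count Nat.Prime q < φ n + 1 := by
    rw [← h3] at h4
    exact (Nat.nth_lt_nth Nat.infinite_setOfPred_prime).1 h4
  have h6 : P (Nat.count Nat.Prime q) ≤ P (φ n) := (Nat.nth_le_nth Nat.infinite_setOfPred_prime).2 (by omega)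
  unfold P at h6
  rw [h3] at h6
  unfold P
  omega

theorem lt_P (m : ℕ) : m < P m := by
  have h : ∀ m : ℕ, m + 2 ≤ P m := by
    intro m
    induction m with
    | zero => unfold P; rw [Nat.nth_prime_zero_eq_two]
    | succ m ih =>
      have : P m < P (m + 1) := (Nat.nth_lt_nth Nat.infinite_setOfPred_prime).2 (Nat.lt_succ_self m)
      omega
  have := h m
  omega

theorem P_mono {a b : ℕ} (h : a ≤ b) : P a ≤ P b := (Nat.nth_le_nth Nat.infinite_setOfPred_prime).2 h

theorem P_lt {a b : ℕ} (h : a < b) : P a < P b := (Nat.nth_lt_nth Nat.infinite_setOfPred_prime).2 h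

/-- the analysis of one window with few primes -/
theorem one_few (κ κ' c c' : ℝ) (hκ' : 0 < κ') (h1 : κ' < κ) (hc' : 0 < c') (h2 : c < c') : ∀ᶠ n : ℕ in atTop,
    (cntP Nat.Prime n ⌊c' * (Real.log n) ^ 2⌋₊ : ℝ) ≤ κ' * Real.log n →
      c * (Real.log (P (φ n))) ^ 2 < B κ (φ n) := by
  have hlog : Tendsto (fun n : ℕ => Real.log n) atTop atTop := Real.tendsto_log_atTop.comp tendsto_natCast_atTop_atTop
  filter_upwards [eventually_ge_atTop 2, hlog.eventually_ge_atTop (κ / (κ - κ')), hlog.eventually_ge_atTop 1,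
    hlog.eventually_ge_atTop (1 / (c' - c) + 1)] with n hn hl1 hl2 hl3 hcnt
  rw [cntP_prime] at hcnt
  set Y := ⌊c' * (Real.log n) ^ 2⌋₊ with hY
  have hP0 : (0 : ℝ) < P (φ n) := by exact_mod_cast (Nat.zero_le _).trans_lt (lt_P (φ n))
  have hP1 : (1 : ℝ) ≤ P (φ n) := by exact_mod_cast (Nat.zero_le _).trans_lt (lt_P (φ n))
  have hPn : ((P (φ n) : ℕ) : ℝ) ≤ n := by exact_mod_cast φ_le n hn
  have hPn2 : (n : ℝ) ≤ 2 * P (φ n) := by exact_mod_cast φ_two n hn
  have hn0 : (0 : ℝ) < n := by linarith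
  have hlP : Real.log n - 1 ≤ Real.log (P (φ n)) := by
    have a1 : Real.log n ≤ Real.log (2 * P (φ n)) := Real.log_le_log hn0 hPn2
    rw [Real.log_mul (by norm_num) hP0.ne'] at a1
    have := Real.log_two_lt_d9
    linarith
  have hlP2 : Real.log (P (φ n)) ≤ Real.log n := Real.log_le_log hP0 hPn
  have hlP0 : 0 ≤ Real.log (P (φ n)) := Real.log_nonneg hP1
  have hκ : 0 < κ := hκ'.trans h1
  have hK : cnt n Y ≤ ⌊κ * Real.log (P (φ n))⌋₊ := by
    apply Nat.le_floor
    rw [div_le_iff₀ (by linarith)] at hl1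
    have : κ * (Real.log n - 1) ≤ κ * Real.log (P (φ n)) := by gcongr
    nlinarith
  have hfar := nth_few Nat.Prime Nat.infinite_setOfPred_prime n Y (cnt n Y + 1) (count_pos n hn)
    (by rw [cntP_prime]; exact Nat.lt_succ_self _)
  have h5 : n + Y < P (φ n + 1 + ⌊κ * Real.log (P (φ n))⌋₊) := by
    refine lt_of_lt_of_le hfar ?_
    apply P_mono
    unfold φ at hK ⊢
    omega
  have h6 : (n : ℝ) + Y + 1 ≤ P (φ n + 1 + ⌊κ * Real.log (P (φ n))⌋₊) := by exact_mod_cast h5
  have hYlt : c' * (Real.log n) ^ 2 < (Y : ℝ) + 1 := Nat.lt_floor_add_one _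
  unfold B
  have h7 : c * (Real.log (P (φ n))) ^ 2 ≤ c' * (Real.log n) ^ 2 := by
    rcases le_or_gt c 0 with hc0 | hc0
    · have a1 : c * (Real.log (P (φ n))) ^ 2 ≤ 0 := mul_nonpos_of_nonpos_of_nonneg hc0 (sq_nonneg _)
      have a2 : 0 ≤ c' * (Real.log n) ^ 2 := by positivity
      linarith
    · have : (Real.log (P (φ n))) ^ 2 ≤ (Real.log n) ^ 2 := by gcongr
      nlinarith
  linarith

/-- the analysis of one window with many primes -/
theorem one_many (κ κ' c : ℝ) (hκ : 0 < κ) (h1 : κ < κ') (hc : 0 < c) : ∀ᶠ n : ℕ in atTop,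
    κ' * Real.log n ≤ (cntP Nat.Prime n ⌊c * (Real.log n) ^ 2⌋₊ : ℝ) →
      n < P (φ n + 1) ∧ P (φ n + 1) ≤ n + ⌊c * (Real.log n) ^ 2⌋₊ ∧ n + ⌊c * (Real.log n) ^ 2⌋₊ ≤ 2 * n ∧
        B κ (φ n + 1) < c * (Real.log (P (φ n + 1))) ^ 2 := by
  have hlog : Tendsto (fun n : ℕ => Real.log n) atTop atTop := Real.tendsto_log_atTop.comp tendsto_natCast_atTop_atTop
  have h0 := (Real.isLittleO_pow_log_id_atTop (n := 2)).bound (show (0 : ℝ) < 1 / c by positivity)
  filter_upwards [eventually_ge_atTop 2, hlog.eventually_ge_atTop ((κ + 3) / (κ' - κ)), hlog.eventually_ge_atTop 1,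
    tendsto_natCast_atTop_atTop (R := ℝ) |>.eventually h0] with n hn hl1 hl2 hl3 hcnt
  rw [cntP_prime] at hcnt
  have hn0 : (2 : ℝ) ≤ n := by exact_mod_cast hn
  rw [Real.norm_of_nonneg (sq_nonneg _), id, Real.norm_of_nonneg (by linarith)] at hl3
  set Y := ⌊c * (Real.log n) ^ 2⌋₊ with hY
  have hYle : (Y : ℝ) ≤ c * (Real.log n) ^ 2 := Nat.floor_le (by positivity)
  have hYn : (Y : ℝ) ≤ n := by
    have : c * (Real.log n) ^ 2 ≤ c * (1 / c * n) := by gcongr
    have h3 : c * (1 / c * n) = n := by field_simp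
    linarith
  have hYn' : n + Y ≤ 2 * n := by
    have : Y ≤ n := by exact_mod_cast hYn
    omega
  have hcp := count_pos n hn
  have hidx : φ n + 1 = Nat.count Nat.Prime (n + 1) := by unfold φ; omega
  have hnth : ∀ K, K < cnt n Y → P (φ n + 1 + K) ≤ n + Y := by
    intro K hK
    have := nth_many Nat.Prime n Y K (by rw [cntP_prime]; exact hK)
    unfold P
    rw [hidx]
    exact this
  have hpos : 3 < (cnt n Y : ℝ) := by
    rw [div_le_iff₀ (by linarith)] at hl1
    have : 0 < κ * Real.log n := by positivity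
    nlinarith
  have hpos' : 3 < cnt n Y := by exact_mod_cast hpos
  have hP := hnth 0 (by omega)
  rw [add_zero] at hP
  refine ⟨lt_φ n hn, hP, hYn', ?_⟩
  have hlt : (n : ℝ) < P (φ n + 1) := by exact_mod_cast lt_φ n hn
  have hle : ((P (φ n + 1) : ℕ) : ℝ) ≤ 2 * n := by exact_mod_cast hP.trans hYn'
  have hlP : Real.log (P (φ n + 1)) ≤ Real.log n + 1 := by
    have a1 : Real.log (P (φ n + 1)) ≤ Real.log (2 * n) := Real.log_le_log (by linarith) hle
    rw [Real.log_mul (by norm_num) (by linarith)] at a1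
    have := Real.log_two_lt_d9
    linarith
  have hlP2 : Real.log n ≤ Real.log (P (φ n + 1)) := Real.log_le_log (by linarith) hlt.le
  have hfl : (⌊κ * Real.log (P (φ n + 1))⌋₊ : ℝ) ≤ κ * Real.log (P (φ n + 1)) :=
    Nat.floor_le (mul_nonneg hκ.le (by linarith))
  have hK : ((1 + ⌊κ * Real.log (P (φ n + 1))⌋₊ : ℕ) : ℝ) < cnt n Y := by
    push_cast
    rw [div_le_iff₀ (by linarith)] at hl1
    have : κ * Real.log (P (φ n + 1)) ≤ κ * (Real.log n + 1) := by gcongr
    nlinarith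
  have hK' : 1 + ⌊κ * Real.log (P (φ n + 1))⌋₊ < cnt n Y := by exact_mod_cast hK
  have h8 := hnth _ hK'
  have h9 : (P (φ n + 1 + (1 + ⌊κ * Real.log (P (φ n + 1))⌋₊)) : ℝ) ≤ n + Y := by exact_mod_cast h8
  unfold B
  rw [add_assoc (φ n + 1)]
  have h10 : c * (Real.log n) ^ 2 ≤ c * (Real.log (P (φ n + 1))) ^ 2 := by gcongr
  linarith

/-- windows with few primes, length in terms of `n` -/
theorem few_final (lam : ℝ) (hlam : 0 < lam) (ε : ℝ) (hε : 0 < ε) : ∀ᶠ X : ℝ in atTop, ∃ n : ℕ, X < n ∧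
    (n : ℝ) < 3 * X ∧ (cnt n ⌊lam * (Real.log n) ^ 2⌋₊ : ℝ) ≤
      (Real.exp Real.eulerMascheroniConstant / 2 + ε) * (lam * Real.log X) := by
  set E := Real.exp Real.eulerMascheroniConstant with hE
  have hE0 : 0 < E := Real.exp_pos _
  -- `(E/2 + δ) lam' ≤ (E/2 + ε) lam`
  set δ := ε / 2 with hδ
  set lam' := (E / 2 + ε) / (E / 2 + δ) * lam with hlam'
  have hd : 0 < E / 2 + δ := by positivity
  have hl' : (E / 2 + δ) * lam' = (E / 2 + ε) * lam := by
    rw [hlam', ← mul_assoc, mul_div_cancel₀ _ hd.ne']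
  have hll : lam < lam' := by
    rw [hlam']
    have : 1 < (E / 2 + ε) / (E / 2 + δ) := by
      rw [one_lt_div hd]; linarith
    nlinarith
  have hlam'0 : 0 < lam' := hlam.trans hll
  have e3 : ∀ᶠ X : ℝ in atTop, lam * (Real.log X + 2) ^ 2 ≤ lam' * (Real.log X) ^ 2 := by
    filter_upwards [Real.tendsto_log_atTop.eventually_ge_atTop (8 * lam / (lam' - lam) + 1)] with X hX
    have h7 : 8 * lam ≤ (lam' - lam) * Real.log X := by
      have h8 : 8 * lam / (lam' - lam) ≤ Real.log X := by linarith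
      rw [div_le_iff₀ (by linarith)] at h8
      linarith
    have h9 : 1 ≤ Real.log X := by
      have : 0 ≤ 8 * lam / (lam' - lam) := div_nonneg (by linarith) (by linarith)
      linarith
    nlinarith
  filter_upwards [windows_few lam' hlam'0 δ (by positivity), e3, eventually_ge_atTop (10 : ℝ)] with X h1 h2 h3
  obtain ⟨n, hn1, hn2, hn3⟩ := h1
  refine ⟨n, hn1, hn2, ?_⟩
  have hXpos : 0 < X := by linarith
  have hLn2 : Real.log n ≤ Real.log X + 2 := by
    have a1 : Real.log n ≤ Real.log (4 * X) := Real.log_le_log (by linarith) (by linarith)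
    rw [Real.log_mul (by norm_num) hXpos.ne'] at a1
    have a2 : Real.log 4 ≤ 2 := by
      rw [show (4 : ℝ) = 2 ^ 2 by norm_num, Real.log_pow]
      have := Real.log_two_lt_d9
      push_cast; linarith
    linarith
  have hL0 : 0 ≤ Real.log n := Real.log_nonneg (by linarith)
  have hLX : 0 < Real.log X := Real.log_pos (by linarith)
  have h4 : ⌊lam * (Real.log n) ^ 2⌋₊ ≤ Yf lam' (Real.log X) := by
    unfold Yf
    apply Nat.floor_le_floor
    refine le_trans ?_ h2
    gcongr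
  have h5 : (cnt n ⌊lam * (Real.log n) ^ 2⌋₊ : ℝ) ≤ cnt n (Yf lam' (Real.log X)) := by
    exact_mod_cast G.cnt_mono n h4
  have h6 : (Yf lam' (Real.log X) : ℝ) ≤ lam' * (Real.log X) ^ 2 := Nat.floor_le (by positivity)
  have h7 : Real.log X * cnt n ⌊lam * (Real.log n) ^ 2⌋₊ ≤ Real.log X * ((E / 2 + ε) * (lam * Real.log X)) := by
    calc Real.log X * cnt n ⌊lam * (Real.log n) ^ 2⌋₊ ≤ Real.log X * cnt n (Yf lam' (Real.log X)) := by gcongr
      _ ≤ (E / 2 + δ) * Yf lam' (Real.log X) := hn3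
      _ ≤ (E / 2 + δ) * (lam' * (Real.log X) ^ 2) := by gcongr
      _ = (E / 2 + δ) * lam' * (Real.log X) ^ 2 := by ring
      _ = (E / 2 + ε) * lam * (Real.log X) ^ 2 := by rw [hl']
      _ = Real.log X * ((E / 2 + ε) * (lam * Real.log X)) := by ring
  exact le_of_mul_le_mul_left h7 hLX


end Pool.Agent.Q20.HB
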